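import Pool.Agent.Lib.MP_4b56aa_gt.Data.T0D0
import Pool.Agent.Lib.MP_4b56aa_gt.Data.T0D1

set_option maxRecDepth 100000

namespace Pool.Agent.Lib.MP_4b56aa_gt.Data.T0

open Cert

def tab : Tab := ⟨4, 5, 14, [271, 272, 316, 361, 406, 451, 496, 541, 586, 631, 676, 721, 766, 810], false, [272], [[271, 271], [271, 272], [272, 289, 298, 307, 316], [316, 325, 334, 343, 352, 361], [361, 370, 379, 388, 397, 406], [406, 415, 424, 433, 442, 451], [451, 460, 469, 478, 487, 496], [496, 505, 514, 523, 532, 541], [541, 550, 559, 568, 577, 586], [586, 595, 604, 613, 622, 631], [631, 640, 649, 658, 667, 676], [676, 685, 694, 703, 712, 721], [721, 730, 739, 748, 757, 766], [766, 775, 784, 793, 810], [810, 811]], [[271, 271], [271, 272], [272, 289, 292, 295, 298, 301, 304, 307, 310, 313, 316], [316, 319, 322, 325, 328, 331, 334, 337, 340, 343, 346, 349, 352, 355, 358,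 361], [361, 364, 367, 370, 373, 376, 379, 382, 385, 388, 391, 394, 397, 400, 403, 406], [406, 409, 412, 415, 418, 421, 424, 427, 430, 433, 436, 439, 442, 445, 448, 451], [451, 454, 457, 460, 463, 466, 469, 472, 475, 478, 481, 484, 487, 490, 493, 496], [496, 499, 502, 505, 508, 511, 514, 517, 520, 523, 526, 529, 532, 535, 538, 541], [541, 544, 547, 550, 553, 556, 559, 562, 565, 568, 571, 574, 577, 580, 583, 586], [586, 589, 592, 595, 598, 601, 604, 607, 610, 613, 616, 619, 622, 625, 628, 631], [631, 634, 637, 640, 643, 646, 649, 652, 655, 658, 661, 664, 667, 670, 673, 676], [676, 679, 682, 685, 688, 691, 694, 697, 700, 703, 706, 709, 712, 715, 718, 721], [721, 724, 727, 730, 733, 736, 739, 742, 745, 748, 751, 754, 757, 760, 763, 766], [766, 769, 772, 775, 778, 781, 784, 787, 790, 793, 810], [810, 811]], (-33554432), (-29326573), (0)⟩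
noncomputable def tK : Tr Nat := (.nd (.nd (.nd (.nd (.nd (.nd (.nd (.nd (.nd (.lf k0) (.lf k256)) (.nd (.lf k128) (.lf k384))) (.nd (.nd (.lf k64) (.lf k320)) (.nd (.lf k192) (.lf k448))))
 (.nd (.nd (.nd (.lf k32) (.lf k288)) (.nd (.lf k160) (.lf k416))) (.nd (.nd (.lf k96) (.lf k352)) (.nd (.lf k224) (.lf 0)))))
 (.lf 0))
 (.nd (.nd (.nd (.nd (.nd (.lf k8) (.lf 0)) (.nd (.lf 0) (.lf k392))) (.nd (.nd (.lf 0) (.lf k328)) (.nd (.lf 0) (.lf k456))))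
 (.nd (.nd (.nd (.lf k40) (.lf 0)) (.nd (.lf 0) (.lf k424))) (.nd (.nd (.lf 0) (.lf k360)) (.lf 0))))
 (.lf 0)))
 (.nd (.nd (.nd (.nd (.nd (.nd (.lf k4) (.lf k260)) (.nd (.lf k132) (.lf k388))) (.nd (.nd (.lf k68) (.lf k324)) (.nd (.lf k196) (.lf k452))))
 (.nd (.nd (.nd (.lf k36) (.lf k292)) (.nd (.lf k164) (.lf k420))) (.nd (.nd (.lf k100) (.lf k356)) (.nd (.lf k228) (.lf 0)))))
 (.lf 0))
 (.nd (.nd (.nd (.nd (.lf 0) (.nd (.lf 0) (.lf k396))) (.lf 0))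
 (.nd (.nd (.lf 0) (.nd (.lf 0) (.lf k428))) (.nd (.nd (.lf 0) (.lf k364)) (.lf 0))))
 (.lf 0))))
 (.nd (.nd (.nd (.nd (.nd (.nd (.nd (.lf k2) (.lf k258)) (.nd (.lf k130) (.lf k386))) (.nd (.nd (.lf k66) (.lf k322)) (.nd (.lf k194) (.lf k450))))
 (.nd (.nd (.nd (.lf k34) (.lf k290)) (.nd (.lf k162) (.lf k418))) (.nd (.nd (.lf k98) (.lf k354)) (.nd (.lf k226) (.lf 0)))))
 (.lf 0))
 (.nd (.nd (.nd (.nd (.nd (.lf k10) (.lf 0)) (.nd (.lf 0) (.lf k394))) (.nd (.nd (.lf 0) (.lf k330)) (.nd (.lf 0) (.lf k458))))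
 (.nd (.nd (.lf 0) (.nd (.lf 0) (.lf k426))) (.nd (.nd (.lf 0) (.lf k362)) (.lf 0))))
 (.lf 0)))
 (.nd (.nd (.nd (.nd (.nd (.nd (.lf k6) (.lf k262)) (.nd (.lf k134) (.lf k390))) (.nd (.nd (.lf k70) (.lf k326)) (.nd (.lf k198) (.lf k454))))
 (.nd (.nd (.nd (.lf k38) (.lf k294)) (.nd (.lf k166) (.lf k422))) (.nd (.nd (.lf k102) (.lf k358)) (.nd (.lf k230) (.lf 0)))))
 (.lf 0))
 (.lf 0))))
 (.nd (.nd (.nd (.nd (.lf 0)
 (.nd (.nd (.nd (.nd (.lf k17) (.lf k273)) (.nd (.lf k145) (.lf k401))) (.nd (.nd (.lf k81) (.lf k337)) (.nd (.lf k209) (.lf k465))))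
 (.nd (.nd (.nd (.lf k49) (.lf k305)) (.nd (.lf k177) (.lf k433))) (.nd (.nd (.lf k113) (.lf k369)) (.nd (.lf k241) (.lf 0))))))
 (.nd (.nd (.nd (.nd (.nd (.lf 0) (.lf k265)) (.nd (.lf k137) (.lf 0))) (.nd (.nd (.lf k73) (.lf 0)) (.nd (.lf k201) (.lf 0))))
 (.nd (.nd (.nd (.lf 0) (.lf k297)) (.nd (.lf k169) (.lf 0))) (.nd (.nd (.lf k105) (.lf 0)) (.nd (.lf k233) (.lf 0)))))
 (.nd (.nd (.nd (.nd (.lf k25) (.lf k281)) (.nd (.lf k153) (.lf k409))) (.nd (.nd (.lf k89) (.lf k345)) (.nd (.lf k217) (.lf k473))))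
 (.nd (.nd (.nd (.lf k57) (.lf k313)) (.nd (.lf k185) (.lf k441))) (.nd (.nd (.lf k121) (.lf k377)) (.nd (.lf k249) (.lf 0)))))))
 (.nd (.nd (.lf 0)
 (.nd (.nd (.nd (.nd (.lf k21) (.lf k277)) (.nd (.lf k149) (.lf k405))) (.nd (.nd (.lf k85) (.lf k341)) (.nd (.lf k213) (.lf k469))))
 (.nd (.nd (.nd (.lf k53) (.lf k309)) (.nd (.lf k181) (.lf k437))) (.nd (.nd (.lf k117) (.lf k373)) (.nd (.lf k245) (.lf 0))))))
 (.nd (.nd (.nd (.nd (.nd (.lf k13) (.lf k269)) (.nd (.lf k141) (.lf 0))) (.nd (.nd (.lf k77) (.lf k333)) (.nd (.lf k205) (.lf k461))))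
 (.nd (.nd (.nd (.lf k45) (.lf k301)) (.nd (.lf k173) (.lf 0))) (.nd (.nd (.lf k109) (.lf 0)) (.nd (.lf k237) (.lf 0)))))
 (.nd (.nd (.nd (.nd (.lf k29) (.lf k285)) (.nd (.lf k157) (.lf k413))) (.nd (.nd (.lf k93) (.lf k349)) (.nd (.lf k221) (.lf k477))))
 (.nd (.nd (.nd (.lf k61) (.lf k317)) (.nd (.lf k189) (.lf k445))) (.nd (.nd (.lf k125) (.lf k381)) (.nd (.lf k253) (.lf 0))))))))
 (.nd (.nd (.nd (.lf 0)
 (.nd (.nd (.nd (.nd (.lf k19) (.lf k275)) (.nd (.lf k147) (.lf k403))) (.nd (.nd (.lf k83) (.lf k339)) (.nd (.lf k211) (.lf k467))))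
 (.nd (.nd (.nd (.lf k51) (.lf k307)) (.nd (.lf k179) (.lf k435))) (.nd (.nd (.lf k115) (.lf k371)) (.nd (.lf k243) (.lf 0))))))
 (.nd (.nd (.nd (.nd (.nd (.lf 0) (.lf k267)) (.nd (.lf k139) (.lf 0))) (.nd (.nd (.lf k75) (.lf 0)) (.nd (.lf k203) (.lf 0))))
 (.nd (.nd (.nd (.lf k43) (.lf k299)) (.nd (.lf k171) (.lf 0))) (.nd (.nd (.lf k107) (.lf 0)) (.nd (.lf k235) (.lf 0)))))
 (.nd (.nd (.nd (.nd (.lf k27) (.lf k283)) (.nd (.lf k155) (.lf k411))) (.nd (.nd (.lf k91) (.lf k347)) (.nd (.lf k219) (.lf k475))))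
 (.nd (.nd (.nd (.lf k59) (.lf k315)) (.nd (.lf k187) (.lf k443))) (.nd (.nd (.lf k123) (.lf k379)) (.nd (.lf k251) (.lf 0)))))))
 (.nd (.nd (.lf 0)
 (.nd (.nd (.nd (.nd (.lf k23) (.lf k279)) (.nd (.lf k151) (.lf k407))) (.nd (.nd (.lf k87) (.lf k343)) (.nd (.lf k215) (.lf k471))))
 (.nd (.nd (.nd (.lf k55) (.lf k311)) (.nd (.lf k183) (.lf k439))) (.nd (.nd (.lf k119) (.lf k375)) (.nd (.lf k247) (.lf 0))))))
 (.nd (.nd (.nd (.nd (.nd (.lf k15) (.lf k271)) (.nd (.lf k143) (.lf k399))) (.nd (.nd (.lf k79) (.lf k335)) (.nd (.lf k207) (.lf k463))))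
 (.nd (.nd (.nd (.lf k47) (.lf k303)) (.nd (.lf k175) (.lf k431))) (.nd (.nd (.lf k111) (.lf k367)) (.nd (.lf k239) (.lf 0)))))
 (.nd (.nd (.nd (.nd (.lf k31) (.lf k287)) (.nd (.lf k159) (.lf k415))) (.nd (.nd (.lf k95) (.lf k351)) (.nd (.lf k223) (.lf k479))))
 (.nd (.nd (.nd (.lf k63) (.lf k319)) (.nd (.lf k191) (.lf k447))) (.nd (.nd (.lf k127) (.lf k383)) (.nd (.lf k255) (.lf 0))))))))))
noncomputable def tM : Tr (List Nat) := (.nd (.nd (.nd (.nd (.nd (.nd (.nd (.nd (.nd (.lf m0) (.lf m256)) (.nd (.lf m128) (.lf m384))) (.nd (.nd (.lf m64) (.lf m320)) (.nd (.lf m192) (.lf m448))))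
 (.nd (.nd (.nd (.lf m32) (.lf m288)) (.nd (.lf m160) (.lf m416))) (.nd (.nd (.lf m96) (.lf m352)) (.nd (.lf m224) (.lf [])))))
 (.lf []))
 (.nd (.nd (.nd (.nd (.nd (.lf m8) (.lf [])) (.nd (.lf []) (.lf m392))) (.nd (.nd (.lf []) (.lf m328)) (.nd (.lf []) (.lf m456))))
 (.nd (.nd (.nd (.lf m40) (.lf [])) (.nd (.lf []) (.lf m424))) (.nd (.nd (.lf []) (.lf m360)) (.lf []))))
 (.lf [])))
 (.nd (.nd (.nd (.nd (.nd (.nd (.lf m4) (.lf m260)) (.nd (.lf m132) (.lf m388))) (.nd (.nd (.lf m68) (.lf m324)) (.nd (.lf m196) (.lf m452))))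
 (.nd (.nd (.nd (.lf m36) (.lf m292)) (.nd (.lf m164) (.lf m420))) (.nd (.nd (.lf m100) (.lf m356)) (.nd (.lf m228) (.lf [])))))
 (.lf []))
 (.nd (.nd (.nd (.nd (.lf []) (.nd (.lf []) (.lf m396))) (.lf []))
 (.nd (.nd (.lf []) (.nd (.lf []) (.lf m428))) (.nd (.nd (.lf []) (.lf m364)) (.lf []))))
 (.lf []))))
 (.nd (.nd (.nd (.nd (.nd (.nd (.nd (.lf m2) (.lf m258)) (.nd (.lf m130) (.lf m386))) (.nd (.nd (.lf m66) (.lf m322)) (.nd (.lf m194) (.lf m450))))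
 (.nd (.nd (.nd (.lf m34) (.lf m290)) (.nd (.lf m162) (.lf m418))) (.nd (.nd (.lf m98) (.lf m354)) (.nd (.lf m226) (.lf [])))))
 (.lf []))
 (.nd (.nd (.nd (.nd (.nd (.lf m10) (.lf [])) (.nd (.lf []) (.lf m394))) (.nd (.nd (.lf []) (.lf m330)) (.nd (.lf []) (.lf m458))))
 (.nd (.nd (.lf []) (.nd (.lf []) (.lf m426))) (.nd (.nd (.lf []) (.lf m362)) (.lf []))))
 (.lf [])))
 (.nd (.nd (.nd (.nd (.nd (.nd (.lf m6) (.lf m262)) (.nd (.lf m134) (.lf m390))) (.nd (.nd (.lf m70) (.lf m326)) (.nd (.lf m198) (.lf m454))))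
 (.nd (.nd (.nd (.lf m38) (.lf m294)) (.nd (.lf m166) (.lf m422))) (.nd (.nd (.lf m102) (.lf m358)) (.nd (.lf m230) (.lf [])))))
 (.lf []))
 (.lf []))))
 (.nd (.nd (.nd (.nd (.lf [])
 (.nd (.nd (.nd (.nd (.lf m17) (.lf m273)) (.nd (.lf m145) (.lf m401))) (.nd (.nd (.lf m81) (.lf m337)) (.nd (.lf m209) (.lf m465))))
 (.nd (.nd (.nd (.lf m49) (.lf m305)) (.nd (.lf m177) (.lf m433))) (.nd (.nd (.lf m113) (.lf m369)) (.nd (.lf m241) (.lf []))))))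
 (.nd (.nd (.nd (.nd (.nd (.lf []) (.lf m265)) (.nd (.lf m137) (.lf []))) (.nd (.nd (.lf m73) (.lf [])) (.nd (.lf m201) (.lf []))))
 (.nd (.nd (.nd (.lf []) (.lf m297)) (.nd (.lf m169) (.lf []))) (.nd (.nd (.lf m105) (.lf [])) (.nd (.lf m233) (.lf [])))))
 (.nd (.nd (.nd (.nd (.lf m25) (.lf m281)) (.nd (.lf m153) (.lf m409))) (.nd (.nd (.lf m89) (.lf m345)) (.nd (.lf m217) (.lf m473))))
 (.nd (.nd (.nd (.lf m57) (.lf m313)) (.nd (.lf m185) (.lf m441))) (.nd (.nd (.lf m121) (.lf m377)) (.nd (.lf m249) (.lf [])))))))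
 (.nd (.nd (.lf [])
 (.nd (.nd (.nd (.nd (.lf m21) (.lf m277)) (.nd (.lf m149) (.lf m405))) (.nd (.nd (.lf m85) (.lf m341)) (.nd (.lf m213) (.lf m469))))
 (.nd (.nd (.nd (.lf m53) (.lf m309)) (.nd (.lf m181) (.lf m437))) (.nd (.nd (.lf m117) (.lf m373)) (.nd (.lf m245) (.lf []))))))
 (.nd (.nd (.nd (.nd (.nd (.lf m13) (.lf m269)) (.nd (.lf m141) (.lf []))) (.nd (.nd (.lf m77) (.lf m333)) (.nd (.lf m205) (.lf m461))))
 (.nd (.nd (.nd (.lf m45) (.lf m301)) (.nd (.lf m173) (.lf []))) (.nd (.nd (.lf m109) (.lf [])) (.nd (.lf m237) (.lf [])))))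
 (.nd (.nd (.nd (.nd (.lf m29) (.lf m285)) (.nd (.lf m157) (.lf m413))) (.nd (.nd (.lf m93) (.lf m349)) (.nd (.lf m221) (.lf m477))))
 (.nd (.nd (.nd (.lf m61) (.lf m317)) (.nd (.lf m189) (.lf m445))) (.nd (.nd (.lf m125) (.lf m381)) (.nd (.lf m253) (.lf []))))))))
 (.nd (.nd (.nd (.lf [])
 (.nd (.nd (.nd (.nd (.lf m19) (.lf m275)) (.nd (.lf m147) (.lf m403))) (.nd (.nd (.lf m83) (.lf m339)) (.nd (.lf m211) (.lf m467))))
 (.nd (.nd (.nd (.lf m51) (.lf m307)) (.nd (.lf m179) (.lf m435))) (.nd (.nd (.lf m115) (.lf m371)) (.nd (.lf m243) (.lf []))))))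
 (.nd (.nd (.nd (.nd (.nd (.lf []) (.lf m267)) (.nd (.lf m139) (.lf []))) (.nd (.nd (.lf m75) (.lf [])) (.nd (.lf m203) (.lf []))))
 (.nd (.nd (.nd (.lf m43) (.lf m299)) (.nd (.lf m171) (.lf []))) (.nd (.nd (.lf m107) (.lf [])) (.nd (.lf m235) (.lf [])))))
 (.nd (.nd (.nd (.nd (.lf m27) (.lf m283)) (.nd (.lf m155) (.lf m411))) (.nd (.nd (.lf m91) (.lf m347)) (.nd (.lf m219) (.lf m475))))
 (.nd (.nd (.nd (.lf m59) (.lf m315)) (.nd (.lf m187) (.lf m443))) (.nd (.nd (.lf m123) (.lf m379)) (.nd (.lf m251) (.lf [])))))))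
 (.nd (.nd (.lf [])
 (.nd (.nd (.nd (.nd (.lf m23) (.lf m279)) (.nd (.lf m151) (.lf m407))) (.nd (.nd (.lf m87) (.lf m343)) (.nd (.lf m215) (.lf m471))))
 (.nd (.nd (.nd (.lf m55) (.lf m311)) (.nd (.lf m183) (.lf m439))) (.nd (.nd (.lf m119) (.lf m375)) (.nd (.lf m247) (.lf []))))))
 (.nd (.nd (.nd (.nd (.nd (.lf m15) (.lf m271)) (.nd (.lf m143) (.lf m399))) (.nd (.nd (.lf m79) (.lf m335)) (.nd (.lf m207) (.lf m463))))
 (.nd (.nd (.nd (.lf m47) (.lf m303)) (.nd (.lf m175) (.lf m431))) (.nd (.nd (.lf m111) (.lf m367)) (.nd (.lf m239) (.lf [])))))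
 (.nd (.nd (.nd (.nd (.lf m31) (.lf m287)) (.nd (.lf m159) (.lf m415))) (.nd (.nd (.lf m95) (.lf m351)) (.nd (.lf m223) (.lf m479))))
 (.nd (.nd (.nd (.lf m63) (.lf m319)) (.nd (.lf m191) (.lf m447))) (.nd (.nd (.lf m127) (.lf m383)) (.nd (.lf m255) (.lf []))))))))))
noncomputable def tG : Tr (List (List Nat)) := (.nd (.nd (.nd (.nd (.nd (.nd (.nd (.nd (.nd (.lf g0) (.lf g256)) (.nd (.lf g128) (.lf g384))) (.nd (.nd (.lf g64) (.lf g320)) (.nd (.lf g192) (.lf g448))))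
 (.nd (.nd (.nd (.lf g32) (.lf g288)) (.nd (.lf g160) (.lf g416))) (.nd (.nd (.lf g96) (.lf g352)) (.nd (.lf g224) (.lf [])))))
 (.lf []))
 (.nd (.nd (.nd (.nd (.nd (.lf g8) (.lf [])) (.nd (.lf []) (.lf g392))) (.nd (.nd (.lf []) (.lf g328)) (.nd (.lf []) (.lf g456))))
 (.nd (.nd (.nd (.lf g40) (.lf [])) (.nd (.lf []) (.lf g424))) (.nd (.nd (.lf []) (.lf g360)) (.lf []))))
 (.lf [])))
 (.nd (.nd (.nd (.nd (.nd (.nd (.lf g4) (.lf g260)) (.nd (.lf g132) (.lf g388))) (.nd (.nd (.lf g68) (.lf g324)) (.nd (.lf g196) (.lf g452))))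
 (.nd (.nd (.nd (.lf g36) (.lf g292)) (.nd (.lf g164) (.lf g420))) (.nd (.nd (.lf g100) (.lf g356)) (.nd (.lf g228) (.lf [])))))
 (.lf []))
 (.nd (.nd (.nd (.nd (.lf []) (.nd (.lf []) (.lf g396))) (.lf []))
 (.nd (.nd (.lf []) (.nd (.lf []) (.lf g428))) (.nd (.nd (.lf []) (.lf g364)) (.lf []))))
 (.lf []))))
 (.nd (.nd (.nd (.nd (.nd (.nd (.nd (.lf g2) (.lf g258)) (.nd (.lf g130) (.lf g386))) (.nd (.nd (.lf g66) (.lf g322)) (.nd (.lf g194) (.lf g450))))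
 (.nd (.nd (.nd (.lf g34) (.lf g290)) (.nd (.lf g162) (.lf g418))) (.nd (.nd (.lf g98) (.lf g354)) (.nd (.lf g226) (.lf [])))))
 (.lf []))
 (.nd (.nd (.nd (.nd (.nd (.lf g10) (.lf [])) (.nd (.lf []) (.lf g394))) (.nd (.nd (.lf []) (.lf g330)) (.nd (.lf []) (.lf g458))))
 (.nd (.nd (.lf []) (.nd (.lf []) (.lf g426))) (.nd (.nd (.lf []) (.lf g362)) (.lf []))))
 (.lf [])))
 (.nd (.nd (.nd (.nd (.nd (.nd (.lf g6) (.lf g262)) (.nd (.lf g134) (.lf g390))) (.nd (.nd (.lf g70) (.lf g326)) (.nd (.lf g198) (.lf g454))))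
 (.nd (.nd (.nd (.lf g38) (.lf g294)) (.nd (.lf g166) (.lf g422))) (.nd (.nd (.lf g102) (.lf g358)) (.nd (.lf g230) (.lf [])))))
 (.lf []))
 (.lf []))))
 (.nd (.nd (.nd (.nd (.lf [])
 (.nd (.nd (.nd (.nd (.lf g17) (.lf g273)) (.nd (.lf g145) (.lf g401))) (.nd (.nd (.lf g81) (.lf g337)) (.nd (.lf g209) (.lf g465))))
 (.nd (.nd (.nd (.lf g49) (.lf g305)) (.nd (.lf g177) (.lf g433))) (.nd (.nd (.lf g113) (.lf g369)) (.nd (.lf g241) (.lf []))))))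
 (.nd (.nd (.nd (.nd (.nd (.lf []) (.lf g265)) (.nd (.lf g137) (.lf []))) (.nd (.nd (.lf g73) (.lf [])) (.nd (.lf g201) (.lf []))))
 (.nd (.nd (.nd (.lf []) (.lf g297)) (.nd (.lf g169) (.lf []))) (.nd (.nd (.lf g105) (.lf [])) (.nd (.lf g233) (.lf [])))))
 (.nd (.nd (.nd (.nd (.lf g25) (.lf g281)) (.nd (.lf g153) (.lf g409))) (.nd (.nd (.lf g89) (.lf g345)) (.nd (.lf g217) (.lf g473))))
 (.nd (.nd (.nd (.lf g57) (.lf g313)) (.nd (.lf g185) (.lf g441))) (.nd (.nd (.lf g121) (.lf g377)) (.nd (.lf g249) (.lf [])))))))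
 (.nd (.nd (.lf [])
 (.nd (.nd (.nd (.nd (.lf g21) (.lf g277)) (.nd (.lf g149) (.lf g405))) (.nd (.nd (.lf g85) (.lf g341)) (.nd (.lf g213) (.lf g469))))
 (.nd (.nd (.nd (.lf g53) (.lf g309)) (.nd (.lf g181) (.lf g437))) (.nd (.nd (.lf g117) (.lf g373)) (.nd (.lf g245) (.lf []))))))
 (.nd (.nd (.nd (.nd (.nd (.lf g13) (.lf g269)) (.nd (.lf g141) (.lf []))) (.nd (.nd (.lf g77) (.lf g333)) (.nd (.lf g205) (.lf g461))))
 (.nd (.nd (.nd (.lf g45) (.lf g301)) (.nd (.lf g173) (.lf []))) (.nd (.nd (.lf g109) (.lf [])) (.nd (.lf g237) (.lf [])))))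
 (.nd (.nd (.nd (.nd (.lf g29) (.lf g285)) (.nd (.lf g157) (.lf g413))) (.nd (.nd (.lf g93) (.lf g349)) (.nd (.lf g221) (.lf g477))))
 (.nd (.nd (.nd (.lf g61) (.lf g317)) (.nd (.lf g189) (.lf g445))) (.nd (.nd (.lf g125) (.lf g381)) (.nd (.lf g253) (.lf []))))))))
 (.nd (.nd (.nd (.lf [])
 (.nd (.nd (.nd (.nd (.lf g19) (.lf g275)) (.nd (.lf g147) (.lf g403))) (.nd (.nd (.lf g83) (.lf g339)) (.nd (.lf g211) (.lf g467))))
 (.nd (.nd (.nd (.lf g51) (.lf g307)) (.nd (.lf g179) (.lf g435))) (.nd (.nd (.lf g115) (.lf g371)) (.nd (.lf g243) (.lf []))))))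
 (.nd (.nd (.nd (.nd (.nd (.lf []) (.lf g267)) (.nd (.lf g139) (.lf []))) (.nd (.nd (.lf g75) (.lf [])) (.nd (.lf g203) (.lf []))))
 (.nd (.nd (.nd (.lf g43) (.lf g299)) (.nd (.lf g171) (.lf []))) (.nd (.nd (.lf g107) (.lf [])) (.nd (.lf g235) (.lf [])))))
 (.nd (.nd (.nd (.nd (.lf g27) (.lf g283)) (.nd (.lf g155) (.lf g411))) (.nd (.nd (.lf g91) (.lf g347)) (.nd (.lf g219) (.lf g475))))
 (.nd (.nd (.nd (.lf g59) (.lf g315)) (.nd (.lf g187) (.lf g443))) (.nd (.nd (.lf g123) (.lf g379)) (.nd (.lf g251) (.lf [])))))))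
 (.nd (.nd (.lf [])
 (.nd (.nd (.nd (.nd (.lf g23) (.lf g279)) (.nd (.lf g151) (.lf g407))) (.nd (.nd (.lf g87) (.lf g343)) (.nd (.lf g215) (.lf g471))))
 (.nd (.nd (.nd (.lf g55) (.lf g311)) (.nd (.lf g183) (.lf g439))) (.nd (.nd (.lf g119) (.lf g375)) (.nd (.lf g247) (.lf []))))))
 (.nd (.nd (.nd (.nd (.nd (.lf g15) (.lf g271)) (.nd (.lf g143) (.lf g399))) (.nd (.nd (.lf g79) (.lf g335)) (.nd (.lf g207) (.lf g463))))
 (.nd (.nd (.nd (.lf g47) (.lf g303)) (.nd (.lf g175) (.lf g431))) (.nd (.nd (.lf g111) (.lf g367)) (.nd (.lf g239) (.lf [])))))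
 (.nd (.nd (.nd (.nd (.lf g31) (.lf g287)) (.nd (.lf g159) (.lf g415))) (.nd (.nd (.lf g95) (.lf g351)) (.nd (.lf g223) (.lf g479))))
 (.nd (.nd (.nd (.lf g63) (.lf g319)) (.nd (.lf g191) (.lf g447))) (.nd (.nd (.lf g127) (.lf g383)) (.nd (.lf g255) (.lf []))))))))))
noncomputable def DK : Nat → Nat := tK.get
noncomputable def DM : Nat → List Nat := tM.get
noncomputable def DG : Nat → List (List Nat) := tG.get

end Pool.Agent.Lib.MP_4b56aa_gt.Data.T0
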