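import Pool.Agent.Lib.MP_4b56aa_gt.Cert.CG2
import Pool.Agent.Lib.MP_4b56aa_gt.Cert.CRoot
import Pool.Agent.Lib.MP_4b56aa_gt.Data.T0C0
import Pool.Agent.Lib.MP_4b56aa_gt.Data.T0C1
import Pool.Agent.Lib.MP_4b56aa_gt.Data.T0C2
import Pool.Agent.Lib.MP_4b56aa_gt.Data.T0C3

set_option maxRecDepth 100000

namespace Pool.Agent.Lib.MP_4b56aa_gt.Data.T0

open Cert

theorem hA : Rng (fun i => ∃ w, fA tab DK DM i w = true) 0 480 :=
  (rng_sound ax0).app <|
  (rng_sound ax21).app <|
  (rng_sound ax75).app <|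
  (rng_sound ax132).app <|
  (rng_sound ax175).app <|
  (rng_sound ax224).app <|
  (rng_sound ax260).app <|
  (rng_sound ax294).app <|
  (rng_sound ax330).app <|
  (rng_sound ax362).app <|
  (rng_sound ax394).app <|
  (rng_sound ax426).app <|
  rng_sound ax456
theorem hG : Rng (fun i => ∃ w, fG tab DM DG i w = true) 0 480 :=
  rng_sound gx0
theorem hS : Rng (fun i => ∃ w, fS tab DK DM i w = true) 0 240 :=
  rng_sound sx0
theorem hB : Rng (fun i => ∃ w, fB tab DM i w = true) 0 15360 :=
  (rng_sound bx0).app <|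
  (rng_sound bx750).app <|
  (rng_sound bx1601).app <|
  (rng_sound bx2711).app <|
  (rng_sound bx3678).app <|
  (rng_sound bx4059).app <|
  (rng_sound bx4947).app <|
  (rng_sound bx5901).app <|
  (rng_sound bx6826).app <|
  (rng_sound bx7821).app <|
  (rng_sound bx8769).app <|
  (rng_sound bx9686).app <|
  (rng_sound bx10922).app <|
  (rng_sound bx12033).app <|
  (rng_sound bx12865).app <|
  (rng_sound bx13230).app <|
  (rng_sound bx14165).app <|
  (rng_sound bx15041).app <|
  rng_sound bx15267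
theorem hC : Rng (fun i => ∃ w, fC tab DG i w = true) 0 3840 :=
  (rng_sound cx0).app <|
  (rng_sound cx1500).app <|
  rng_sound cx3000
theorem concl : tab.Concl :=
  (good_of2 (DG := DG) (by decide +kernel) hA hG hS hB hC ⟨_, p⟩).concl

end Pool.Agent.Lib.MP_4b56aa_gt.Data.T0
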