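import Pool.Agent.Lib.MP_4b56aa_gt.Cert.CG2
import Pool.Agent.Lib.MP_4b56aa_gt.Cert.CRoot
import Pool.Agent.Lib.MP_4b56aa_gt.Data.T15C0
import Pool.Agent.Lib.MP_4b56aa_gt.Data.T15C1
import Pool.Agent.Lib.MP_4b56aa_gt.Data.T15C2
import Pool.Agent.Lib.MP_4b56aa_gt.Data.T15C3

set_option maxRecDepth 100000

namespace Pool.Agent.Lib.MP_4b56aa_gt.Data.T15

open Cert

theorem hA : Rng (fun i => ∃ w, fA tab DK DM i w = true) 0 480 :=
  (rng_sound ax0).app <|
  (rng_sound ax13).app <|
  (rng_sound ax38).app <|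
  (rng_sound ax79).app <|
  (rng_sound ax128).app <|
  (rng_sound ax166).app <|
  (rng_sound ax201).app <|
  (rng_sound ax233).app <|
  (rng_sound ax265).app <|
  (rng_sound ax297).app <|
  (rng_sound ax328).app <|
  (rng_sound ax358).app <|
  (rng_sound ax386).app <|
  (rng_sound ax407).app <|
  (rng_sound ax431).app <|
  rng_sound ax456
theorem hG : Rng (fun i => ∃ w, fG tab DM DG i w = true) 0 480 :=
  rng_sound gx0
theorem hS : Rng (fun i => ∃ w, fS tab DK DM i w = true) 0 240 :=
  rng_sound sx0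
theorem hB : Rng (fun i => ∃ w, fB tab DM i w = true) 0 15360 :=
  (rng_sound bx0).app <|
  (rng_sound bx667).app <|
  (rng_sound bx746).app <|
  (rng_sound bx841).app <|
  (rng_sound bx935).app <|
  (rng_sound bx1759).app <|
  (rng_sound bx2650).app <|
  (rng_sound bx2926).app <|
  (rng_sound bx3795).app <|
  (rng_sound bx3954).app <|
  (rng_sound bx4826).app <|
  (rng_sound bx5034).app <|
  (rng_sound bx5901).app <|
  (rng_sound bx6661).app <|
  (rng_sound bx7014).app <|
  (rng_sound bx7838).app <|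
  (rng_sound bx8182).app <|
  (rng_sound bx9195).app <|
  (rng_sound bx10223).app <|
  (rng_sound bx11723).app <|
  (rng_sound bx12199).app <|
  (rng_sound bx13125).app <|
  (rng_sound bx13295).app <|
  (rng_sound bx14122).app <|
  (rng_sound bx14319).app <|
  (rng_sound bx15074).app <|
  (rng_sound bx15203).app <|
  rng_sound bx15342
theorem hC : Rng (fun i => ∃ w, fC tab DG i w = true) 0 3840 :=
  (rng_sound cx0).app <|
  (rng_sound cx1500).app <|
  rng_sound cx3000
theorem concl : tab.Concl :=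
  (good_of2 (DG := DG) (by decide +kernel) hA hG hS hB hC ⟨_, p⟩).concl

end Pool.Agent.Lib.MP_4b56aa_gt.Data.T15
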