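import Pool.Agent.Lib.MP_4b56aa_gt.Data.T37D0
import Pool.Agent.Lib.MP_4b56aa_gt.Data.T37D1

set_option maxRecDepth 100000

namespace Pool.Agent.Lib.MP_4b56aa_gt.Data.T37

open Cert

def tab : Tab := ⟨4, 0, 12, [271, 316, 361, 406, 451, 496, 541, 586, 631, 676, 721, 766], true, [271, 337, 382], [[271, 271], [271, 280, 289, 298, 307, 316], [316, 325, 334, 343, 352, 361], [361, 370, 379, 388, 397, 406], [406, 415, 424, 433, 442, 451], [451, 460, 469, 478, 487, 496], [496, 505, 514, 523, 532, 541], [541, 550, 559, 568, 577, 586], [586, 595, 604, 613, 622, 631], [631, 640, 649, 658, 667, 676], [676, 685, 694, 703, 712, 721], [721, 730, 739, 748, 757, 766], [766, 775, 784, 793, 802, 811]], [[271, 271], [271, 274, 277, 280, 283, 286, 289, 292, 295, 298, 301, 304, 307, 310, 313, 316], [316, 319, 322, 325, 328, 331, 334, 337, 340, 343,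 346, 349, 352, 355, 358, 361], [361, 364, 367, 370, 373, 376, 379, 382, 385, 388, 391, 394, 397, 400, 403, 406], [406, 409, 412, 415, 418, 421, 424, 427, 430, 433, 436, 439, 442, 445, 448, 451], [451, 454, 457, 460, 463, 466, 469, 472, 475, 478, 481, 484, 487, 490, 493, 496], [496, 499, 502, 505, 508, 511, 514, 517, 520, 523, 526, 529, 532, 535, 538, 541], [541, 544, 547, 550, 553, 556, 559, 562, 565, 568, 571, 574, 577, 580, 583, 586], [586, 589, 592, 595, 598, 601, 604, 607, 610, 613, 616, 619, 622, 625, 628, 631], [631, 634, 637, 640, 643, 646, 649, 652, 655, 658, 661, 664, 667, 670, 673, 676], [676, 679, 682, 685, 688, 691, 694, 697, 700, 703, 706, 709, 712, 715, 718, 721], [721, 724, 727, 730, 733, 736, 739, 742, 745, 748, 751, 754, 757, 760, 763, 766], [766, 769, 772, 775, 778, 781, 784, 787, 790, 793, 796, 799, 802, 805,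 808, 811]], (-13421772), (-13421772), (-1006632)⟩
noncomputable def tK : Tr Nat := (.nd (.nd (.nd (.nd (.nd (.nd (.nd (.nd (.nd (.lf k0) (.lf k256)) (.lf 0)) (.nd (.nd (.lf k64) (.lf 0)) (.lf 0)))
 (.nd (.nd (.nd (.lf k32) (.lf k288)) (.lf 0)) (.nd (.lf 0) (.nd (.lf k224) (.lf 0)))))
 (.nd (.nd (.nd (.lf 0) (.nd (.lf k144) (.lf 0))) (.nd (.nd (.lf 0) (.lf k336)) (.lf 0)))
 (.nd (.nd (.lf 0) (.nd (.lf k176) (.lf 0))) (.nd (.nd (.lf k112) (.lf 0)) (.lf 0)))))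
 (.nd (.nd (.nd (.nd (.nd (.lf k8) (.lf 0)) (.lf 0)) (.nd (.lf 0) (.nd (.lf k200) (.lf 0))))
 (.nd (.nd (.lf 0) (.nd (.lf k168) (.lf 0))) (.nd (.lf 0) (.nd (.lf k232) (.lf 0)))))
 (.nd (.nd (.nd (.nd (.lf 0) (.lf k280)) (.lf 0)) (.nd (.nd (.lf k88) (.lf k344)) (.lf 0)))
 (.nd (.nd (.nd (.lf k56) (.lf k312)) (.lf 0)) (.nd (.nd (.lf k120) (.lf 0)) (.lf 0))))))
 (.nd (.nd (.nd (.nd (.nd (.nd (.lf k4) (.lf k260)) (.lf 0)) (.nd (.lf 0) (.nd (.lf k196) (.lf 0))))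
 (.nd (.nd (.nd (.lf k36) (.lf 0)) (.lf 0)) (.nd (.lf 0) (.nd (.lf k228) (.lf 0)))))
 (.nd (.nd (.nd (.lf 0) (.nd (.lf k148) (.lf 0))) (.nd (.nd (.lf k84) (.lf k340)) (.lf 0)))
 (.nd (.nd (.nd (.lf 0) (.lf k308)) (.lf 0)) (.nd (.nd (.lf k116) (.lf 0)) (.lf 0)))))
 (.nd (.nd (.nd (.nd (.lf 0) (.nd (.lf k140) (.lf 0))) (.nd (.lf 0) (.nd (.lf k204) (.lf 0))))
 (.nd (.nd (.lf 0) (.nd (.lf k172) (.lf 0))) (.lf 0)))
 (.nd (.nd (.nd (.nd (.lf k28) (.lf k284)) (.lf 0)) (.nd (.nd (.lf k92) (.lf 0)) (.lf 0)))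
 (.nd (.nd (.nd (.lf k60) (.lf k316)) (.lf 0)) (.nd (.lf 0) (.nd (.lf k252) (.lf 0))))))))
 (.nd (.nd (.nd (.nd (.nd (.nd (.nd (.lf k2) (.lf k258)) (.lf 0)) (.lf 0))
 (.nd (.nd (.nd (.lf k34) (.lf k290)) (.lf 0)) (.nd (.lf 0) (.nd (.lf k226) (.lf 0)))))
 (.nd (.nd (.nd (.lf 0) (.nd (.lf k146) (.lf 0))) (.nd (.nd (.lf 0) (.lf k338)) (.lf 0)))
 (.nd (.lf 0) (.nd (.nd (.lf k114) (.lf 0)) (.lf 0)))))
 (.nd (.nd (.nd (.lf 0) (.nd (.lf 0) (.nd (.lf k202) (.lf 0))))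
 (.nd (.nd (.lf 0) (.nd (.lf k170) (.lf 0))) (.lf 0)))
 (.nd (.nd (.nd (.nd (.lf 0) (.lf k282)) (.lf 0)) (.nd (.nd (.lf k90) (.lf k346)) (.lf 0)))
 (.nd (.nd (.nd (.lf k58) (.lf k314)) (.lf 0)) (.lf 0)))))
 (.nd (.nd (.nd (.nd (.nd (.nd (.lf k6) (.lf k262)) (.lf 0)) (.nd (.lf 0) (.nd (.lf k198) (.lf 0))))
 (.nd (.lf 0) (.nd (.lf 0) (.nd (.lf k230) (.lf 0)))))
 (.nd (.nd (.lf 0) (.nd (.nd (.lf k86) (.lf k342)) (.lf 0)))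
 (.nd (.nd (.nd (.lf 0) (.lf k310)) (.lf 0)) (.nd (.nd (.lf k118) (.lf 0)) (.lf 0)))))
 (.nd (.nd (.nd (.nd (.lf 0) (.nd (.lf k142) (.lf 0))) (.lf 0))
 (.nd (.nd (.lf 0) (.nd (.lf k174) (.lf 0))) (.lf 0)))
 (.nd (.nd (.nd (.nd (.lf k30) (.lf k286)) (.lf 0)) (.lf 0))
 (.nd (.nd (.nd (.lf k62) (.lf k318)) (.lf 0)) (.nd (.lf 0) (.nd (.lf k254) (.lf 0)))))))))
 (.nd (.nd (.nd (.nd (.nd (.nd (.nd (.lf 0) (.nd (.lf k129) (.lf 0))) (.nd (.nd (.lf k65) (.lf k321)) (.nd (.lf k193) (.lf 0))))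
 (.nd (.nd (.lf 0) (.nd (.lf k161) (.lf 0))) (.nd (.nd (.lf k97) (.lf k353)) (.lf 0))))
 (.nd (.nd (.nd (.nd (.lf k17) (.lf k273)) (.lf 0)) (.nd (.nd (.lf k81) (.lf 0)) (.nd (.lf k209) (.lf 0))))
 (.nd (.nd (.nd (.lf k49) (.lf k305)) (.nd (.lf k177) (.lf 0))) (.nd (.lf 0) (.nd (.lf k241) (.lf 0))))))
 (.nd (.nd (.nd (.nd (.nd (.lf 0) (.lf k265)) (.nd (.lf k137) (.lf 0))) (.nd (.nd (.lf k73) (.lf k329)) (.lf 0)))
 (.nd (.nd (.nd (.lf k41) (.lf k297)) (.lf 0)) (.nd (.nd (.lf k105) (.lf k361)) (.nd (.lf k233) (.lf 0)))))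
 (.nd (.nd (.nd (.nd (.lf k25) (.lf 0)) (.nd (.lf k153) (.lf 0))) (.nd (.lf 0) (.nd (.lf k217) (.lf 0))))
 (.nd (.nd (.lf 0) (.nd (.lf k185) (.lf 0))) (.nd (.nd (.lf k121) (.lf 0)) (.nd (.lf k249) (.lf 0)))))))
 (.nd (.nd (.nd (.nd (.nd (.lf 0) (.nd (.lf k133) (.lf 0))) (.nd (.nd (.lf k69) (.lf k325)) (.lf 0)))
 (.nd (.nd (.nd (.lf k37) (.lf k293)) (.nd (.lf k165) (.lf 0))) (.nd (.nd (.lf k101) (.lf k357)) (.lf 0))))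
 (.nd (.nd (.nd (.nd (.lf k21) (.lf k277)) (.nd (.lf k149) (.lf 0))) (.nd (.lf 0) (.nd (.lf k213) (.lf 0))))
 (.nd (.nd (.nd (.lf k53) (.lf 0)) (.nd (.lf k181) (.lf 0))) (.nd (.lf 0) (.nd (.lf k245) (.lf 0))))))
 (.nd (.nd (.nd (.nd (.nd (.lf k13) (.lf k269)) (.lf 0)) (.nd (.nd (.lf k77) (.lf k333)) (.nd (.lf k205) (.lf 0))))
 (.nd (.nd (.nd (.lf k45) (.lf k301)) (.lf 0)) (.nd (.nd (.lf k109) (.lf 0)) (.nd (.lf k237) (.lf 0)))))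
 (.nd (.nd (.nd (.lf 0) (.nd (.lf k157) (.lf 0))) (.nd (.nd (.lf k93) (.lf k349)) (.nd (.lf k221) (.lf 0))))
 (.nd (.nd (.lf 0) (.nd (.lf k189) (.lf 0))) (.nd (.nd (.lf k125) (.lf 0)) (.lf 0)))))))
 (.nd (.nd (.nd (.nd (.nd (.nd (.lf 0) (.nd (.lf k131) (.lf 0))) (.nd (.nd (.lf k67) (.lf k323)) (.nd (.lf k195) (.lf 0))))
 (.nd (.nd (.nd (.lf 0) (.lf k291)) (.nd (.lf k163) (.lf 0))) (.nd (.nd (.lf k99) (.lf k355)) (.lf 0))))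
 (.nd (.nd (.nd (.nd (.lf k19) (.lf k275)) (.lf 0)) (.nd (.nd (.lf k83) (.lf 0)) (.nd (.lf k211) (.lf 0))))
 (.nd (.nd (.nd (.lf k51) (.lf k307)) (.nd (.lf k179) (.lf 0))) (.nd (.lf 0) (.nd (.lf k243) (.lf 0))))))
 (.nd (.nd (.nd (.nd (.nd (.lf k11) (.lf k267)) (.nd (.lf k139) (.lf 0))) (.nd (.nd (.lf k75) (.lf k331)) (.lf 0)))
 (.nd (.nd (.nd (.lf k43) (.lf k299)) (.lf 0)) (.nd (.nd (.lf k107) (.lf k363)) (.nd (.lf k235) (.lf 0)))))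
 (.nd (.nd (.nd (.nd (.lf k27) (.lf 0)) (.nd (.lf k155) (.lf 0))) (.nd (.nd (.lf 0) (.lf k347)) (.nd (.lf k219) (.lf 0))))
 (.nd (.nd (.lf 0) (.nd (.lf k187) (.lf 0))) (.nd (.nd (.lf k123) (.lf 0)) (.nd (.lf k251) (.lf 0)))))))
 (.nd (.nd (.nd (.nd (.nd (.nd (.lf 0) (.lf k263)) (.nd (.lf k135) (.lf 0))) (.nd (.nd (.lf k71) (.lf k327)) (.lf 0)))
 (.nd (.nd (.nd (.lf k39) (.lf k295)) (.nd (.lf k167) (.lf 0))) (.nd (.nd (.lf k103) (.lf k359)) (.lf 0))))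
 (.nd (.nd (.nd (.nd (.lf k23) (.lf k279)) (.nd (.lf k151) (.lf 0))) (.nd (.lf 0) (.nd (.lf k215) (.lf 0))))
 (.nd (.nd (.nd (.lf k55) (.lf 0)) (.nd (.lf k183) (.lf 0))) (.nd (.lf 0) (.nd (.lf k247) (.lf 0))))))
 (.nd (.nd (.nd (.nd (.nd (.lf k15) (.lf k271)) (.lf 0)) (.nd (.nd (.lf k79) (.lf k335)) (.nd (.lf k207) (.lf 0))))
 (.nd (.nd (.nd (.lf k47) (.lf k303)) (.lf 0)) (.nd (.nd (.lf k111) (.lf 0)) (.nd (.lf k239) (.lf 0)))))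
 (.nd (.nd (.nd (.lf 0) (.nd (.lf k159) (.lf 0))) (.nd (.nd (.lf k95) (.lf k351)) (.nd (.lf k223) (.lf 0))))
 (.nd (.nd (.nd (.lf 0) (.lf k319)) (.nd (.lf k191) (.lf 0))) (.nd (.nd (.lf k127) (.lf 0)) (.lf 0)))))))))
noncomputable def tM : Tr (List Nat) := (.nd (.nd (.nd (.nd (.nd (.nd (.nd (.nd (.nd (.lf m0) (.lf m256)) (.lf [])) (.nd (.nd (.lf m64) (.lf [])) (.lf [])))
 (.nd (.nd (.nd (.lf m32) (.lf m288)) (.lf [])) (.nd (.lf []) (.nd (.lf m224) (.lf [])))))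
 (.nd (.nd (.nd (.lf []) (.nd (.lf m144) (.lf []))) (.nd (.nd (.lf []) (.lf m336)) (.lf [])))
 (.nd (.nd (.lf []) (.nd (.lf m176) (.lf []))) (.nd (.nd (.lf m112) (.lf [])) (.lf [])))))
 (.nd (.nd (.nd (.nd (.nd (.lf m8) (.lf [])) (.lf [])) (.nd (.lf []) (.nd (.lf m200) (.lf []))))
 (.nd (.nd (.lf []) (.nd (.lf m168) (.lf []))) (.nd (.lf []) (.nd (.lf m232) (.lf [])))))
 (.nd (.nd (.nd (.nd (.lf []) (.lf m280)) (.lf [])) (.nd (.nd (.lf m88) (.lf m344)) (.lf [])))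
 (.nd (.nd (.nd (.lf m56) (.lf m312)) (.lf [])) (.nd (.nd (.lf m120) (.lf [])) (.lf []))))))
 (.nd (.nd (.nd (.nd (.nd (.nd (.lf m4) (.lf m260)) (.lf [])) (.nd (.lf []) (.nd (.lf m196) (.lf []))))
 (.nd (.nd (.nd (.lf m36) (.lf [])) (.lf [])) (.nd (.lf []) (.nd (.lf m228) (.lf [])))))
 (.nd (.nd (.nd (.lf []) (.nd (.lf m148) (.lf []))) (.nd (.nd (.lf m84) (.lf m340)) (.lf [])))
 (.nd (.nd (.nd (.lf []) (.lf m308)) (.lf [])) (.nd (.nd (.lf m116) (.lf [])) (.lf [])))))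
 (.nd (.nd (.nd (.nd (.lf []) (.nd (.lf m140) (.lf []))) (.nd (.lf []) (.nd (.lf m204) (.lf []))))
 (.nd (.nd (.lf []) (.nd (.lf m172) (.lf []))) (.lf [])))
 (.nd (.nd (.nd (.nd (.lf m28) (.lf m284)) (.lf [])) (.nd (.nd (.lf m92) (.lf [])) (.lf [])))
 (.nd (.nd (.nd (.lf m60) (.lf m316)) (.lf [])) (.nd (.lf []) (.nd (.lf m252) (.lf []))))))))
 (.nd (.nd (.nd (.nd (.nd (.nd (.nd (.lf m2) (.lf m258)) (.lf [])) (.lf []))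
 (.nd (.nd (.nd (.lf m34) (.lf m290)) (.lf [])) (.nd (.lf []) (.nd (.lf m226) (.lf [])))))
 (.nd (.nd (.nd (.lf []) (.nd (.lf m146) (.lf []))) (.nd (.nd (.lf []) (.lf m338)) (.lf [])))
 (.nd (.lf []) (.nd (.nd (.lf m114) (.lf [])) (.lf [])))))
 (.nd (.nd (.nd (.lf []) (.nd (.lf []) (.nd (.lf m202) (.lf []))))
 (.nd (.nd (.lf []) (.nd (.lf m170) (.lf []))) (.lf [])))
 (.nd (.nd (.nd (.nd (.lf []) (.lf m282)) (.lf [])) (.nd (.nd (.lf m90) (.lf m346)) (.lf [])))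
 (.nd (.nd (.nd (.lf m58) (.lf m314)) (.lf [])) (.lf [])))))
 (.nd (.nd (.nd (.nd (.nd (.nd (.lf m6) (.lf m262)) (.lf [])) (.nd (.lf []) (.nd (.lf m198) (.lf []))))
 (.nd (.lf []) (.nd (.lf []) (.nd (.lf m230) (.lf [])))))
 (.nd (.nd (.lf []) (.nd (.nd (.lf m86) (.lf m342)) (.lf [])))
 (.nd (.nd (.nd (.lf []) (.lf m310)) (.lf [])) (.nd (.nd (.lf m118) (.lf [])) (.lf [])))))
 (.nd (.nd (.nd (.nd (.lf []) (.nd (.lf m142) (.lf []))) (.lf []))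
 (.nd (.nd (.lf []) (.nd (.lf m174) (.lf []))) (.lf [])))
 (.nd (.nd (.nd (.nd (.lf m30) (.lf m286)) (.lf [])) (.lf []))
 (.nd (.nd (.nd (.lf m62) (.lf m318)) (.lf [])) (.nd (.lf []) (.nd (.lf m254) (.lf [])))))))))
 (.nd (.nd (.nd (.nd (.nd (.nd (.nd (.lf []) (.nd (.lf m129) (.lf []))) (.nd (.nd (.lf m65) (.lf m321)) (.nd (.lf m193) (.lf []))))
 (.nd (.nd (.lf []) (.nd (.lf m161) (.lf []))) (.nd (.nd (.lf m97) (.lf m353)) (.lf []))))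
 (.nd (.nd (.nd (.nd (.lf m17) (.lf m273)) (.lf [])) (.nd (.nd (.lf m81) (.lf [])) (.nd (.lf m209) (.lf []))))
 (.nd (.nd (.nd (.lf m49) (.lf m305)) (.nd (.lf m177) (.lf []))) (.nd (.lf []) (.nd (.lf m241) (.lf []))))))
 (.nd (.nd (.nd (.nd (.nd (.lf []) (.lf m265)) (.nd (.lf m137) (.lf []))) (.nd (.nd (.lf m73) (.lf m329)) (.lf [])))
 (.nd (.nd (.nd (.lf m41) (.lf m297)) (.lf [])) (.nd (.nd (.lf m105) (.lf m361)) (.nd (.lf m233) (.lf [])))))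
 (.nd (.nd (.nd (.nd (.lf m25) (.lf [])) (.nd (.lf m153) (.lf []))) (.nd (.lf []) (.nd (.lf m217) (.lf []))))
 (.nd (.nd (.lf []) (.nd (.lf m185) (.lf []))) (.nd (.nd (.lf m121) (.lf [])) (.nd (.lf m249) (.lf [])))))))
 (.nd (.nd (.nd (.nd (.nd (.lf []) (.nd (.lf m133) (.lf []))) (.nd (.nd (.lf m69) (.lf m325)) (.lf [])))
 (.nd (.nd (.nd (.lf m37) (.lf m293)) (.nd (.lf m165) (.lf []))) (.nd (.nd (.lf m101) (.lf m357)) (.lf []))))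
 (.nd (.nd (.nd (.nd (.lf m21) (.lf m277)) (.nd (.lf m149) (.lf []))) (.nd (.lf []) (.nd (.lf m213) (.lf []))))
 (.nd (.nd (.nd (.lf m53) (.lf [])) (.nd (.lf m181) (.lf []))) (.nd (.lf []) (.nd (.lf m245) (.lf []))))))
 (.nd (.nd (.nd (.nd (.nd (.lf m13) (.lf m269)) (.lf [])) (.nd (.nd (.lf m77) (.lf m333)) (.nd (.lf m205) (.lf []))))
 (.nd (.nd (.nd (.lf m45) (.lf m301)) (.lf [])) (.nd (.nd (.lf m109) (.lf [])) (.nd (.lf m237) (.lf [])))))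
 (.nd (.nd (.nd (.lf []) (.nd (.lf m157) (.lf []))) (.nd (.nd (.lf m93) (.lf m349)) (.nd (.lf m221) (.lf []))))
 (.nd (.nd (.lf []) (.nd (.lf m189) (.lf []))) (.nd (.nd (.lf m125) (.lf [])) (.lf [])))))))
 (.nd (.nd (.nd (.nd (.nd (.nd (.lf []) (.nd (.lf m131) (.lf []))) (.nd (.nd (.lf m67) (.lf m323)) (.nd (.lf m195) (.lf []))))
 (.nd (.nd (.nd (.lf []) (.lf m291)) (.nd (.lf m163) (.lf []))) (.nd (.nd (.lf m99) (.lf m355)) (.lf []))))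
 (.nd (.nd (.nd (.nd (.lf m19) (.lf m275)) (.lf [])) (.nd (.nd (.lf m83) (.lf [])) (.nd (.lf m211) (.lf []))))
 (.nd (.nd (.nd (.lf m51) (.lf m307)) (.nd (.lf m179) (.lf []))) (.nd (.lf []) (.nd (.lf m243) (.lf []))))))
 (.nd (.nd (.nd (.nd (.nd (.lf m11) (.lf m267)) (.nd (.lf m139) (.lf []))) (.nd (.nd (.lf m75) (.lf m331)) (.lf [])))
 (.nd (.nd (.nd (.lf m43) (.lf m299)) (.lf [])) (.nd (.nd (.lf m107) (.lf m363)) (.nd (.lf m235) (.lf [])))))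
 (.nd (.nd (.nd (.nd (.lf m27) (.lf [])) (.nd (.lf m155) (.lf []))) (.nd (.nd (.lf []) (.lf m347)) (.nd (.lf m219) (.lf []))))
 (.nd (.nd (.lf []) (.nd (.lf m187) (.lf []))) (.nd (.nd (.lf m123) (.lf [])) (.nd (.lf m251) (.lf [])))))))
 (.nd (.nd (.nd (.nd (.nd (.nd (.lf []) (.lf m263)) (.nd (.lf m135) (.lf []))) (.nd (.nd (.lf m71) (.lf m327)) (.lf [])))
 (.nd (.nd (.nd (.lf m39) (.lf m295)) (.nd (.lf m167) (.lf []))) (.nd (.nd (.lf m103) (.lf m359)) (.lf []))))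
 (.nd (.nd (.nd (.nd (.lf m23) (.lf m279)) (.nd (.lf m151) (.lf []))) (.nd (.lf []) (.nd (.lf m215) (.lf []))))
 (.nd (.nd (.nd (.lf m55) (.lf [])) (.nd (.lf m183) (.lf []))) (.nd (.lf []) (.nd (.lf m247) (.lf []))))))
 (.nd (.nd (.nd (.nd (.nd (.lf m15) (.lf m271)) (.lf [])) (.nd (.nd (.lf m79) (.lf m335)) (.nd (.lf m207) (.lf []))))
 (.nd (.nd (.nd (.lf m47) (.lf m303)) (.lf [])) (.nd (.nd (.lf m111) (.lf [])) (.nd (.lf m239) (.lf [])))))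
 (.nd (.nd (.nd (.lf []) (.nd (.lf m159) (.lf []))) (.nd (.nd (.lf m95) (.lf m351)) (.nd (.lf m223) (.lf []))))
 (.nd (.nd (.nd (.lf []) (.lf m319)) (.nd (.lf m191) (.lf []))) (.nd (.nd (.lf m127) (.lf [])) (.lf [])))))))))
noncomputable def tG : Tr (List (List Nat)) := (.nd (.nd (.nd (.nd (.nd (.nd (.nd (.nd (.nd (.lf g0) (.lf g256)) (.lf [])) (.nd (.nd (.lf g64) (.lf [])) (.lf [])))
 (.nd (.nd (.nd (.lf g32) (.lf g288)) (.lf [])) (.nd (.lf []) (.nd (.lf g224) (.lf [])))))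
 (.nd (.nd (.nd (.lf []) (.nd (.lf g144) (.lf []))) (.nd (.nd (.lf []) (.lf g336)) (.lf [])))
 (.nd (.nd (.lf []) (.nd (.lf g176) (.lf []))) (.nd (.nd (.lf g112) (.lf [])) (.lf [])))))
 (.nd (.nd (.nd (.nd (.nd (.lf g8) (.lf [])) (.lf [])) (.nd (.lf []) (.nd (.lf g200) (.lf []))))
 (.nd (.nd (.lf []) (.nd (.lf g168) (.lf []))) (.nd (.lf []) (.nd (.lf g232) (.lf [])))))
 (.nd (.nd (.nd (.nd (.lf []) (.lf g280)) (.lf [])) (.nd (.nd (.lf g88) (.lf g344)) (.lf [])))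
 (.nd (.nd (.nd (.lf g56) (.lf g312)) (.lf [])) (.nd (.nd (.lf g120) (.lf [])) (.lf []))))))
 (.nd (.nd (.nd (.nd (.nd (.nd (.lf g4) (.lf g260)) (.lf [])) (.nd (.lf []) (.nd (.lf g196) (.lf []))))
 (.nd (.nd (.nd (.lf g36) (.lf [])) (.lf [])) (.nd (.lf []) (.nd (.lf g228) (.lf [])))))
 (.nd (.nd (.nd (.lf []) (.nd (.lf g148) (.lf []))) (.nd (.nd (.lf g84) (.lf g340)) (.lf [])))
 (.nd (.nd (.nd (.lf []) (.lf g308)) (.lf [])) (.nd (.nd (.lf g116) (.lf [])) (.lf [])))))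
 (.nd (.nd (.nd (.nd (.lf []) (.nd (.lf g140) (.lf []))) (.nd (.lf []) (.nd (.lf g204) (.lf []))))
 (.nd (.nd (.lf []) (.nd (.lf g172) (.lf []))) (.lf [])))
 (.nd (.nd (.nd (.nd (.lf g28) (.lf g284)) (.lf [])) (.nd (.nd (.lf g92) (.lf [])) (.lf [])))
 (.nd (.nd (.nd (.lf g60) (.lf g316)) (.lf [])) (.nd (.lf []) (.nd (.lf g252) (.lf []))))))))
 (.nd (.nd (.nd (.nd (.nd (.nd (.nd (.lf g2) (.lf g258)) (.lf [])) (.lf []))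
 (.nd (.nd (.nd (.lf g34) (.lf g290)) (.lf [])) (.nd (.lf []) (.nd (.lf g226) (.lf [])))))
 (.nd (.nd (.nd (.lf []) (.nd (.lf g146) (.lf []))) (.nd (.nd (.lf []) (.lf g338)) (.lf [])))
 (.nd (.lf []) (.nd (.nd (.lf g114) (.lf [])) (.lf [])))))
 (.nd (.nd (.nd (.lf []) (.nd (.lf []) (.nd (.lf g202) (.lf []))))
 (.nd (.nd (.lf []) (.nd (.lf g170) (.lf []))) (.lf [])))
 (.nd (.nd (.nd (.nd (.lf []) (.lf g282)) (.lf [])) (.nd (.nd (.lf g90) (.lf g346)) (.lf [])))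
 (.nd (.nd (.nd (.lf g58) (.lf g314)) (.lf [])) (.lf [])))))
 (.nd (.nd (.nd (.nd (.nd (.nd (.lf g6) (.lf g262)) (.lf [])) (.nd (.lf []) (.nd (.lf g198) (.lf []))))
 (.nd (.lf []) (.nd (.lf []) (.nd (.lf g230) (.lf [])))))
 (.nd (.nd (.lf []) (.nd (.nd (.lf g86) (.lf g342)) (.lf [])))
 (.nd (.nd (.nd (.lf []) (.lf g310)) (.lf [])) (.nd (.nd (.lf g118) (.lf [])) (.lf [])))))
 (.nd (.nd (.nd (.nd (.lf []) (.nd (.lf g142) (.lf []))) (.lf []))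
 (.nd (.nd (.lf []) (.nd (.lf g174) (.lf []))) (.lf [])))
 (.nd (.nd (.nd (.nd (.lf g30) (.lf g286)) (.lf [])) (.lf []))
 (.nd (.nd (.nd (.lf g62) (.lf g318)) (.lf [])) (.nd (.lf []) (.nd (.lf g254) (.lf [])))))))))
 (.nd (.nd (.nd (.nd (.nd (.nd (.nd (.lf []) (.nd (.lf g129) (.lf []))) (.nd (.nd (.lf g65) (.lf g321)) (.nd (.lf g193) (.lf []))))
 (.nd (.nd (.lf []) (.nd (.lf g161) (.lf []))) (.nd (.nd (.lf g97) (.lf g353)) (.lf []))))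
 (.nd (.nd (.nd (.nd (.lf g17) (.lf g273)) (.lf [])) (.nd (.nd (.lf g81) (.lf [])) (.nd (.lf g209) (.lf []))))
 (.nd (.nd (.nd (.lf g49) (.lf g305)) (.nd (.lf g177) (.lf []))) (.nd (.lf []) (.nd (.lf g241) (.lf []))))))
 (.nd (.nd (.nd (.nd (.nd (.lf []) (.lf g265)) (.nd (.lf g137) (.lf []))) (.nd (.nd (.lf g73) (.lf g329)) (.lf [])))
 (.nd (.nd (.nd (.lf g41) (.lf g297)) (.lf [])) (.nd (.nd (.lf g105) (.lf g361)) (.nd (.lf g233) (.lf [])))))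
 (.nd (.nd (.nd (.nd (.lf g25) (.lf [])) (.nd (.lf g153) (.lf []))) (.nd (.lf []) (.nd (.lf g217) (.lf []))))
 (.nd (.nd (.lf []) (.nd (.lf g185) (.lf []))) (.nd (.nd (.lf g121) (.lf [])) (.nd (.lf g249) (.lf [])))))))
 (.nd (.nd (.nd (.nd (.nd (.lf []) (.nd (.lf g133) (.lf []))) (.nd (.nd (.lf g69) (.lf g325)) (.lf [])))
 (.nd (.nd (.nd (.lf g37) (.lf g293)) (.nd (.lf g165) (.lf []))) (.nd (.nd (.lf g101) (.lf g357)) (.lf []))))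
 (.nd (.nd (.nd (.nd (.lf g21) (.lf g277)) (.nd (.lf g149) (.lf []))) (.nd (.lf []) (.nd (.lf g213) (.lf []))))
 (.nd (.nd (.nd (.lf g53) (.lf [])) (.nd (.lf g181) (.lf []))) (.nd (.lf []) (.nd (.lf g245) (.lf []))))))
 (.nd (.nd (.nd (.nd (.nd (.lf g13) (.lf g269)) (.lf [])) (.nd (.nd (.lf g77) (.lf g333)) (.nd (.lf g205) (.lf []))))
 (.nd (.nd (.nd (.lf g45) (.lf g301)) (.lf [])) (.nd (.nd (.lf g109) (.lf [])) (.nd (.lf g237) (.lf [])))))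
 (.nd (.nd (.nd (.lf []) (.nd (.lf g157) (.lf []))) (.nd (.nd (.lf g93) (.lf g349)) (.nd (.lf g221) (.lf []))))
 (.nd (.nd (.lf []) (.nd (.lf g189) (.lf []))) (.nd (.nd (.lf g125) (.lf [])) (.lf [])))))))
 (.nd (.nd (.nd (.nd (.nd (.nd (.lf []) (.nd (.lf g131) (.lf []))) (.nd (.nd (.lf g67) (.lf g323)) (.nd (.lf g195) (.lf []))))
 (.nd (.nd (.nd (.lf []) (.lf g291)) (.nd (.lf g163) (.lf []))) (.nd (.nd (.lf g99) (.lf g355)) (.lf []))))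
 (.nd (.nd (.nd (.nd (.lf g19) (.lf g275)) (.lf [])) (.nd (.nd (.lf g83) (.lf [])) (.nd (.lf g211) (.lf []))))
 (.nd (.nd (.nd (.lf g51) (.lf g307)) (.nd (.lf g179) (.lf []))) (.nd (.lf []) (.nd (.lf g243) (.lf []))))))
 (.nd (.nd (.nd (.nd (.nd (.lf g11) (.lf g267)) (.nd (.lf g139) (.lf []))) (.nd (.nd (.lf g75) (.lf g331)) (.lf [])))
 (.nd (.nd (.nd (.lf g43) (.lf g299)) (.lf [])) (.nd (.nd (.lf g107) (.lf g363)) (.nd (.lf g235) (.lf [])))))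
 (.nd (.nd (.nd (.nd (.lf g27) (.lf [])) (.nd (.lf g155) (.lf []))) (.nd (.nd (.lf []) (.lf g347)) (.nd (.lf g219) (.lf []))))
 (.nd (.nd (.lf []) (.nd (.lf g187) (.lf []))) (.nd (.nd (.lf g123) (.lf [])) (.nd (.lf g251) (.lf [])))))))
 (.nd (.nd (.nd (.nd (.nd (.nd (.lf []) (.lf g263)) (.nd (.lf g135) (.lf []))) (.nd (.nd (.lf g71) (.lf g327)) (.lf [])))
 (.nd (.nd (.nd (.lf g39) (.lf g295)) (.nd (.lf g167) (.lf []))) (.nd (.nd (.lf g103) (.lf g359)) (.lf []))))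
 (.nd (.nd (.nd (.nd (.lf g23) (.lf g279)) (.nd (.lf g151) (.lf []))) (.nd (.lf []) (.nd (.lf g215) (.lf []))))
 (.nd (.nd (.nd (.lf g55) (.lf [])) (.nd (.lf g183) (.lf []))) (.nd (.lf []) (.nd (.lf g247) (.lf []))))))
 (.nd (.nd (.nd (.nd (.nd (.lf g15) (.lf g271)) (.lf [])) (.nd (.nd (.lf g79) (.lf g335)) (.nd (.lf g207) (.lf []))))
 (.nd (.nd (.nd (.lf g47) (.lf g303)) (.lf [])) (.nd (.nd (.lf g111) (.lf [])) (.nd (.lf g239) (.lf [])))))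
 (.nd (.nd (.nd (.lf []) (.nd (.lf g159) (.lf []))) (.nd (.nd (.lf g95) (.lf g351)) (.nd (.lf g223) (.lf []))))
 (.nd (.nd (.nd (.lf []) (.lf g319)) (.nd (.lf g191) (.lf []))) (.nd (.nd (.lf g127) (.lf [])) (.lf [])))))))))
noncomputable def DK : Nat → Nat := tK.get
noncomputable def DM : Nat → List Nat := tM.get
noncomputable def DG : Nat → List (List Nat) := tG.get

end Pool.Agent.Lib.MP_4b56aa_gt.Data.T37
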