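import Pool.Agent.Lib.MP_4b56aa_gt.Cert.CG2
import Pool.Agent.Lib.MP_4b56aa_gt.Cert.CRoot
import Pool.Agent.Lib.MP_4b56aa_gt.Data.T37C0
import Pool.Agent.Lib.MP_4b56aa_gt.Data.T37C1
import Pool.Agent.Lib.MP_4b56aa_gt.Data.T37C2
import Pool.Agent.Lib.MP_4b56aa_gt.Data.T37C3
import Pool.Agent.Lib.MP_4b56aa_gt.Data.T37C4
import Pool.Agent.Lib.MP_4b56aa_gt.Data.T37C5

set_option maxRecDepth 100000

namespace Pool.Agent.Lib.MP_4b56aa_gt.Data.T37

open Cert

theorem hA : Rng (fun i => ∃ w, fA tab DK DM i w = true) 0 364 :=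
  (rng_sound ax0).app <|
  (rng_sound ax2).app <|
  (rng_sound ax3).app <|
  (rng_sound ax6).app <|
  (rng_sound ax8).app <|
  (rng_sound ax11).app <|
  (rng_sound ax15).app <|
  (rng_sound ax19).app <|
  (rng_sound ax32).app <|
  (rng_sound ax39).app <|
  (rng_sound ax58).app <|
  (rng_sound ax65).app <|
  (rng_sound ax77).app <|
  (rng_sound ax93).app <|
  (rng_sound ax105).app <|
  (rng_sound ax121).app <|
  (rng_sound ax135).app <|
  (rng_sound ax149).app <|
  (rng_sound ax161).app <|
  (rng_sound ax176).app <|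
  (rng_sound ax183).app <|
  (rng_sound ax198).app <|
  (rng_sound ax205).app <|
  (rng_sound ax213).app <|
  (rng_sound ax228).app <|
  (rng_sound ax235).app <|
  (rng_sound ax247).app <|
  (rng_sound ax260).app <|
  (rng_sound ax267).app <|
  (rng_sound ax282).app <|
  (rng_sound ax288).app <|
  (rng_sound ax297).app <|
  (rng_sound ax312).app <|
  (rng_sound ax316).app <|
  (rng_sound ax325).app <|
  (rng_sound ax338).app <|
  (rng_sound ax339).app <|
  (rng_sound ax342).app <|
  (rng_sound ax346).app <|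
  (rng_sound ax349).app <|
  rng_sound ax355
theorem hG : Rng (fun i => ∃ w, fG tab DM DG i w = true) 0 364 :=
  rng_sound gx0
theorem hS : Rng (fun i => ∃ w, fS tab DK DM i w = true) 0 182 :=
  rng_sound sx0
theorem hB : Rng (fun i => ∃ w, fB tab DM i w = true) 0 10192 :=
  (rng_sound bx0).app <|
  (rng_sound bx337).app <|
  (rng_sound bx393).app <|
  (rng_sound bx397).app <|
  (rng_sound bx405).app <|
  (rng_sound bx453).app <|
  (rng_sound bx478).app <|
  (rng_sound bx513).app <|
  (rng_sound bx542).app <|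
  (rng_sound bx569).app <|
  (rng_sound bx577).app <|
  (rng_sound bx590).app <|
  (rng_sound bx621).app <|
  (rng_sound bx639).app <|
  (rng_sound bx647).app <|
  (rng_sound bx681).app <|
  (rng_sound bx729).app <|
  (rng_sound bx1086).app <|
  (rng_sound bx1363).app <|
  (rng_sound bx1479).app <|
  (rng_sound bx1547).app <|
  (rng_sound bx2077).app <|
  (rng_sound bx2203).app <|
  (rng_sound bx2226).app <|
  (rng_sound bx2282).app <|
  (rng_sound bx2770).app <|
  (rng_sound bx2938).app <|
  (rng_sound bx2977).app <|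
  (rng_sound bx3010).app <|
  (rng_sound bx3498).app <|
  (rng_sound bx3674).app <|
  (rng_sound bx3779).app <|
  (rng_sound bx4222).app <|
  (rng_sound bx4402).app <|
  (rng_sound bx4559).app <|
  (rng_sound bx5006).app <|
  (rng_sound bx5126).app <|
  (rng_sound bx5265).app <|
  (rng_sound bx5418).app <|
  (rng_sound bx5881).app <|
  (rng_sound bx6082).app <|
  (rng_sound bx6262).app <|
  (rng_sound bx6630).app <|
  (rng_sound bx6889).app <|
  (rng_sound bx7031).app <|
  (rng_sound bx7654).app <|
  (rng_sound bx7822).app <|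
  (rng_sound bx8413).app <|
  (rng_sound bx8535).app <|
  (rng_sound bx9029).app <|
  (rng_sound bx9201).app <|
  (rng_sound bx9323).app <|
  (rng_sound bx9745).app <|
  (rng_sound bx9805).app <|
  (rng_sound bx9861).app <|
  (rng_sound bx9886).app <|
  (rng_sound bx9935).app <|
  (rng_sound bx9985).app <|
  (rng_sound bx10029).app <|
  (rng_sound bx10037).app <|
  (rng_sound bx10047).app <|
  (rng_sound bx10055).app <|
  (rng_sound bx10085).app <|
  (rng_sound bx10107).app <|
  rng_sound bx10167
theorem hC : Rng (fun i => ∃ w, fC tab DG i w = true) 0 2548 :=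
  (rng_sound cx0).app <|
  rng_sound cx1500
theorem concl : tab.Concl :=
  (good_of2 (DG := DG) (by decide +kernel) hA hG hS hB hC ⟨_, p⟩).concl

end Pool.Agent.Lib.MP_4b56aa_gt.Data.T37
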