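import Pool.Agent.Lib.MP_4b56aa_gt.Cert.CG2
import Pool.Agent.Lib.MP_4b56aa_gt.Cert.CRoot
import Pool.Agent.Lib.MP_4b56aa_gt.Data.T45C0
import Pool.Agent.Lib.MP_4b56aa_gt.Data.T45C1
import Pool.Agent.Lib.MP_4b56aa_gt.Data.T45C2
import Pool.Agent.Lib.MP_4b56aa_gt.Data.T45C3
import Pool.Agent.Lib.MP_4b56aa_gt.Data.T45C4
import Pool.Agent.Lib.MP_4b56aa_gt.Data.T45C5
import Pool.Agent.Lib.MP_4b56aa_gt.Data.T45C6

set_option maxRecDepth 100000

namespace Pool.Agent.Lib.MP_4b56aa_gt.Data.T45

open Cert

theorem hA : Rng (fun i => ∃ w, fA tab DK DM i w = true) 0 364 :=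
  (rng_sound ax0).app <|
  (rng_sound ax2).app <|
  (rng_sound ax3).app <|
  (rng_sound ax6).app <|
  (rng_sound ax11).app <|
  (rng_sound ax15).app <|
  (rng_sound ax19).app <|
  (rng_sound ax32).app <|
  (rng_sound ax39).app <|
  (rng_sound ax58).app <|
  (rng_sound ax67).app <|
  (rng_sound ax86).app <|
  (rng_sound ax93).app <|
  (rng_sound ax105).app <|
  (rng_sound ax120).app <|
  (rng_sound ax131).app <|
  (rng_sound ax144).app <|
  (rng_sound ax153).app <|
  (rng_sound ax170).app <|
  (rng_sound ax177).app <|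
  (rng_sound ax185).app <|
  (rng_sound ax200).app <|
  (rng_sound ax205).app <|
  (rng_sound ax211).app <|
  (rng_sound ax226).app <|
  (rng_sound ax233).app <|
  (rng_sound ax239).app <|
  (rng_sound ax256).app <|
  (rng_sound ax263).app <|
  (rng_sound ax271).app <|
  (rng_sound ax284).app <|
  (rng_sound ax291).app <|
  (rng_sound ax308).app <|
  (rng_sound ax312).app <|
  (rng_sound ax316).app <|
  (rng_sound ax325).app <|
  (rng_sound ax338).app <|
  (rng_sound ax339).app <|
  (rng_sound ax342).app <|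
  (rng_sound ax346).app <|
  (rng_sound ax349).app <|
  rng_sound ax353
theorem hG : Rng (fun i => ∃ w, fG tab DM DG i w = true) 0 364 :=
  rng_sound gx0
theorem hS : Rng (fun i => ∃ w, fS tab DK DM i w = true) 0 182 :=
  rng_sound sx0
theorem hB : Rng (fun i => ∃ w, fB tab DM i w = true) 0 10192 :=
  (rng_sound bx0).app <|
  (rng_sound bx337).app <|
  (rng_sound bx393).app <|
  (rng_sound bx401).app <|
  (rng_sound bx453).app <|
  (rng_sound bx478).app <|
  (rng_sound bx517).app <|
  (rng_sound bx561).app <|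
  (rng_sound bx569).app <|
  (rng_sound bx577).app <|
  (rng_sound bx590).app <|
  (rng_sound bx621).app <|
  (rng_sound bx639).app <|
  (rng_sound bx647).app <|
  (rng_sound bx662).app <|
  (rng_sound bx703).app <|
  (rng_sound bx755).app <|
  (rng_sound bx1202).app <|
  (rng_sound bx1423).app <|
  (rng_sound bx1490).app <|
  (rng_sound bx1543).app <|
  (rng_sound bx1986).app <|
  (rng_sound bx2197).app <|
  (rng_sound bx2222).app <|
  (rng_sound bx2270).app <|
  (rng_sound bx2577).app <|
  (rng_sound bx2913).app <|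
  (rng_sound bx2946).app <|
  (rng_sound bx2987).app <|
  (rng_sound bx3006).app <|
  (rng_sound bx3107).app <|
  (rng_sound bx3649).app <|
  (rng_sound bx3726).app <|
  (rng_sound bx3858).app <|
  (rng_sound bx4381).app <|
  (rng_sound bx4454).app <|
  (rng_sound bx4611).app <|
  (rng_sound bx5097).app <|
  (rng_sound bx5165).app <|
  (rng_sound bx5298).app <|
  (rng_sound bx5463).app <|
  (rng_sound bx5889).app <|
  (rng_sound bx6105).app <|
  (rng_sound bx6251).app <|
  (rng_sound bx6630).app <|
  (rng_sound bx6862).app <|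
  (rng_sound bx7031).app <|
  (rng_sound bx7598).app <|
  (rng_sound bx7755).app <|
  (rng_sound bx8301).app <|
  (rng_sound bx8479).app <|
  (rng_sound bx8905).app <|
  (rng_sound bx9145).app <|
  (rng_sound bx9271).app <|
  (rng_sound bx9383).app <|
  (rng_sound bx9753).app <|
  (rng_sound bx9809).app <|
  (rng_sound bx9861).app <|
  (rng_sound bx9890).app <|
  (rng_sound bx9934).app <|
  (rng_sound bx9981).app <|
  (rng_sound bx10029).app <|
  (rng_sound bx10041).app <|
  (rng_sound bx10054).app <|
  (rng_sound bx10081).app <|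
  (rng_sound bx10103).app <|
  (rng_sound bx10115).app <|
  rng_sound bx10163
theorem hC : Rng (fun i => ∃ w, fC tab DG i w = true) 0 2548 :=
  (rng_sound cx0).app <|
  rng_sound cx1500
theorem concl : tab.Concl :=
  (good_of2 (DG := DG) (by decide +kernel) hA hG hS hB hC ⟨_, p⟩).concl

end Pool.Agent.Lib.MP_4b56aa_gt.Data.T45
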